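import Mathlib

/-! Displacements of `L²` functions under left translations. -/

set_option autoImplicit false
set_option linter.unusedSectionVars false
set_option linter.unusedVariables false

open MeasureTheory Set

namespace Pool.Agent.K1H99.ZO

section

variable {G : Type} [Group G] [MeasurableSpace G] [MeasurableMul G] {μ : Measure G}
  [μ.IsMulLeftInvariant]

/-- the displacement -/
noncomputable def dd (μ : Measure G) (s : G) (f : G → ℂ) : ℝ :=
  (eLpNorm (fun g => f (s * g) - f g) 2 μ).toReal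

theorem memLp_tr {f : G → ℂ} (hf : MemLp f 2 μ) (s : G) : MemLp (fun g => f (s * g)) 2 μ :=
  hf.comp_measurePreserving (measurePreserving_mul_left μ s)

theorem memLp_sub {f : G → ℂ} (hf : MemLp f 2 μ) (s : G) :
    MemLp (fun g => f (s * g) - f g) 2 μ := (memLp_tr hf s).sub hf

theorem norm_tr {F : G → ℂ} (hF : MemLp F 2 μ) (s : G) :
    eLpNorm (fun g => F (s * g)) 2 μ = eLpNorm F 2 μ :=
  eLpNorm_comp_measurePreserving hF.aestronglyMeasurable (measurePreserving_mul_left μ s)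

theorem sq_norm {F : G → ℂ} (hF : MemLp F 2 μ) :
    (eLpNorm F 2 μ).toReal ^ 2 = ∫ g, ‖F g‖ ^ 2 ∂μ := by
  rw [hF.eLpNorm_eq_integral_rpow_norm two_ne_zero ENNReal.ofNat_ne_top]
  have h0 : 0 ≤ ∫ g, ‖F g‖ ^ 2 ∂μ := integral_nonneg fun g => by positivity
  simp only [ENNReal.toReal_ofNat, Real.rpow_ofNat]
  rw [ENNReal.toReal_ofReal (by positivity), ← Real.rpow_natCast, ← Real.rpow_mul h0]
  norm_num

theorem dd_nonneg (s : G) (f : G → ℂ) : 0 ≤ dd μ s f := ENNReal.toReal_nonneg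

theorem dd_sq {f : G → ℂ} (hf : MemLp f 2 μ) (s : G) :
    dd μ s f ^ 2 = ∫ g, ‖f (s * g) - f g‖ ^ 2 ∂μ := sq_norm (memLp_sub hf s)

theorem dd_one (f : G → ℂ) : dd μ 1 f = 0 := by
  unfold dd
  simp

theorem dd_mul {f : G → ℂ} (hf : MemLp f 2 μ) (s t : G) :
    dd μ (s * t) f ≤ dd μ s f + dd μ t f := by
  unfold dd
  have h1 : (fun g => f (s * t * g) - f g) =
      (fun g => (fun x => f (s * x) - f x) (t * g)) + fun g => f (t * g) - f g := by
    funext g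
    simp [mul_assoc]
  rw [h1, ← norm_tr (memLp_sub hf s) t]
  have h2 : MemLp (fun g => (fun x => f (s * x) - f x) (t * g)) 2 μ :=
    memLp_tr (memLp_sub hf s) t
  rw [← ENNReal.toReal_add h2.eLpNorm_ne_top (memLp_sub hf t).eLpNorm_ne_top]
  refine ENNReal.toReal_mono
    (ENNReal.add_ne_top.2 ⟨h2.eLpNorm_ne_top, (memLp_sub hf t).eLpNorm_ne_top⟩) ?_
  exact eLpNorm_add_le h2.aestronglyMeasurable (memLp_sub hf t).aestronglyMeasurable
    one_le_two

theorem dd_inv {f : G → ℂ} (hf : MemLp f 2 μ) (s : G) : dd μ s⁻¹ f = dd μ s f := by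
  unfold dd
  have h1 : (fun g => f (s⁻¹ * g) - f g) =
      -fun g => (fun x => f (s * x) - f x) (s⁻¹ * g) := by
    funext g
    simp
  rw [h1, eLpNorm_neg, norm_tr (memLp_sub hf s) s⁻¹]

/-- words -/
theorem closure_bound (S : Set G) (D : (G → ℂ) → ℝ) (hD0 : ∀ f, 0 ≤ D f)
    (hD : ∀ s ∈ S, ∀ f, MemLp f 2 μ → dd μ s f ≤ D f) {x : G} (hx : x ∈ Subgroup.closure S) :
    ∃ L : ℝ, 0 ≤ L ∧ ∀ f, MemLp f 2 μ → dd μ x f ≤ L * D f := by
  induction hx using Subgroup.closure_induction with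
  | mem x hx => exact ⟨1, zero_le_one, fun f hf => by rw [one_mul]; exact hD x hx f hf⟩
  | one => exact ⟨0, le_rfl, fun f hf => by rw [dd_one, zero_mul]⟩
  | mul x y _ _ hx hy =>
    obtain ⟨L, hL, h1⟩ := hx
    obtain ⟨L', hL', h2⟩ := hy
    exact ⟨L + L', add_nonneg hL hL', fun f hf => by
      rw [add_mul]
      exact (dd_mul hf x y).trans (add_le_add (h1 f hf) (h2 f hf))⟩
  | inv x _ hx =>
    obtain ⟨L, hL, h1⟩ := hx
    exact ⟨L, hL, fun f hf => by rw [dd_inv hf]; exact h1 f hf⟩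

theorem two_words (S : Set G) (D : (G → ℂ) → ℝ) (hD0 : ∀ f, 0 ≤ D f)
    (hD : ∀ s ∈ S, ∀ f, MemLp f 2 μ → dd μ s f ≤ D f) {x y : G}
    (hx : x ∈ Subgroup.closure S) (hy : y ∈ Subgroup.closure S) :
    ∃ A : ℝ, 0 ≤ A ∧ ∀ f, MemLp f 2 μ → dd μ x f ^ 2 + dd μ y f ^ 2 ≤ A * D f ^ 2 := by
  obtain ⟨L, hL, h1⟩ := closure_bound S D hD0 hD hx
  obtain ⟨L', hL', h2⟩ := closure_bound S D hD0 hD hy
  refine ⟨L ^ 2 + L' ^ 2, by positivity, fun f hf => ?_⟩
  have e1 := pow_le_pow_left₀ (dd_nonneg x f) (h1 f hf) 2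
  have e2 := pow_le_pow_left₀ (dd_nonneg y f) (h2 f hf) 2
  nlinarith

/-- the quadratic form of the averaging operator -/
theorem form_eq {f : G → ℂ} (hf : MemLp f 2 μ) (S : Finset G) :
    (∫ g, (∑ s ∈ S, f (s * g)) * (starRingEnd ℂ) (f g) ∂μ).re =
      (S.card : ℝ) * (∫ g, ‖f g‖ ^ 2 ∂μ) - (1 / 2) * ∑ s ∈ S, dd μ s f ^ 2 := by
  have hstar : MemLp (fun g => (starRingEnd ℂ) (f g)) 2 μ := hf.star
  have hint : ∀ s : G, Integrable (fun g => f (s * g) * (starRingEnd ℂ) (f g)) μ := fun s =>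
    (memLp_tr hf s).integrable_mul hstar
  have h2 : ∀ F : G → ℂ, MemLp F 2 μ → Integrable (fun g => ‖F g‖ ^ 2) μ := fun F hF =>
    (memLp_two_iff_integrable_sq_norm hF.aestronglyMeasurable).1 hF
  have h1 : ∀ s : G, (∫ g, f (s * g) * (starRingEnd ℂ) (f g) ∂μ).re =
      (∫ g, ‖f g‖ ^ 2 ∂μ) - (1 / 2) * dd μ s f ^ 2 := by
    intro s
    have e1 : (∫ g, f (s * g) * (starRingEnd ℂ) (f g) ∂μ).re =
        ∫ g, (f (s * g) * (starRingEnd ℂ) (f g)).re ∂μ := (integral_re (hint s)).symm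
    have e2 : ∫ g, ‖f (s * g)‖ ^ 2 ∂μ = ∫ g, ‖f g‖ ^ 2 ∂μ := by
      rw [← sq_norm (memLp_tr hf s), ← sq_norm hf, norm_tr hf s]
    have e3 : ∀ g, (f (s * g) * (starRingEnd ℂ) (f g)).re =
        (1 / 2) * (‖f (s * g)‖ ^ 2 + ‖f g‖ ^ 2 - ‖f (s * g) - f g‖ ^ 2) := by
      intro g
      rw [Complex.sq_norm, Complex.sq_norm, Complex.sq_norm, Complex.normSq_sub]
      ring
    rw [e1, dd_sq hf s]
    simp only [e3]
    have hI : Integrable (fun g => ‖f (s * g)‖ ^ 2 + ‖f g‖ ^ 2) μ :=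
      (h2 _ (memLp_tr hf s)).add (h2 _ hf)
    rw [integral_const_mul, integral_sub hI (h2 _ (memLp_sub hf s)),
      integral_add (h2 _ (memLp_tr hf s)) (h2 _ hf), e2]
    ring
  have e4 : ∀ g, (∑ s ∈ S, f (s * g)) * (starRingEnd ℂ) (f g) =
      ∑ s ∈ S, f (s * g) * (starRingEnd ℂ) (f g) := fun g => Finset.sum_mul _ _ _
  simp only [e4]
  rw [integral_finsetSum _ fun s _ => hint s, Complex.re_sum, Finset.sum_congr rfl fun s _ => h1 s,
    Finset.sum_sub_distrib, Finset.sum_const, nsmul_eq_mul, Finset.mul_sum]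

end

end Pool.Agent.K1H99.ZO
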