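import Pool.Agent.K1H92.ZO.Defs
import Pool.Agent.K1H99.ZO.Gen

/-! The pieces EQV, WORD, FIN on the spectral gap. -/

set_option autoImplicit false

open MeasureTheory Set

namespace Pool.Agent.K1H99.ZO

open Pool.Agent.K1H92.ZO

variable [MeasurableSpace SO3] [BorelSpace SO3]

theorem unif_iff (μ : Measure SO3) [μ.IsHaarMeasure] (c : ℝ) (a b : SO3) :
    Unif μ c a b ↔ ∀ f : SO3 → ℂ, MemLp f 2 μ → ∫ g, f g ∂μ = 0 →
      c * ∫ g, ‖f g‖ ^ 2 ∂μ ≤ dd μ a f ^ 2 + dd μ b f ^ 2 := by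
  unfold Unif
  refine forall_congr' fun f => forall_congr' fun hf => ?_
  rw [dd_sq hf, dd_sq hf]

theorem gap_iff (μ : Measure SO3) [μ.IsHaarMeasure] (S : Finset SO3) :
    HasGap μ S ↔ ∃ ε : ℝ, 0 < ε ∧ ∀ f : SO3 → ℂ, MemLp f 2 μ → ∫ g, f g ∂μ = 0 →
      2 * ε * ∫ g, ‖f g‖ ^ 2 ∂μ ≤ ∑ s ∈ S, dd μ s f ^ 2 := by
  unfold HasGap
  refine exists_congr fun ε => and_congr_right fun _ => forall_congr' fun f =>
    forall_congr' fun hf => forall_congr' fun _ => ?_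
  rw [form_eq hf]
  constructor <;> intro h <;> linarith

open Classical in
theorem eqv : StmEqv := by
  intro μ _ _ a b
  rw [gap_iff]
  constructor
  · rintro ⟨ε, hε, h⟩
    refine ⟨ε, hε, (unif_iff μ ε a b).2 fun f hf h0 => ?_⟩
    have h1 := h f hf h0
    have h2 : ∑ s ∈ gens a b, dd μ s f ^ 2 ≤ 2 * (dd μ a f ^ 2 + dd μ b f ^ 2) := by
      have hi : dd μ a⁻¹ f ^ 2 = dd μ a f ^ 2 := by rw [dd_inv hf]
      have hj : dd μ b⁻¹ f ^ 2 = dd μ b f ^ 2 := by rw [dd_inv hf]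
      have e : ∀ (x : SO3) (T : Finset SO3), ∑ s ∈ insert x T, dd μ s f ^ 2 ≤
          dd μ x f ^ 2 + ∑ s ∈ T, dd μ s f ^ 2 := by
        intro x T
        by_cases hx : x ∈ T
        · rw [Finset.insert_eq_of_mem hx]
          linarith [sq_nonneg (dd μ x f)]
        · rw [Finset.sum_insert hx]
      have g1 := e a {b, a⁻¹, b⁻¹}
      have g2 := e b {a⁻¹, b⁻¹}
      have g3 := e a⁻¹ {b⁻¹}
      rw [Finset.sum_singleton] at g3
      have g0 : ∑ s ∈ gens a b, dd μ s f ^ 2 = ∑ s ∈ ({a, b, a⁻¹, b⁻¹} : Finset SO3), dd μ s f ^ 2 :=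
        rfl
      rw [g0]
      linarith
    linarith
  · rintro ⟨c, hc, h⟩
    refine ⟨c / 4, by positivity, fun f hf h0 => ?_⟩
    have h1 := (unif_iff μ c a b).1 h f hf h0
    have hm : ∀ x ∈ gens a b, dd μ x f ^ 2 ≤ ∑ s ∈ gens a b, dd μ s f ^ 2 := fun x hx =>
      Finset.single_le_sum (f := fun s => dd μ s f ^ 2) (fun _ _ => sq_nonneg _) hx
    have ha := hm a (by simp [gens])
    have hb := hm b (by simp [gens])
    have h5 : 2 * (c / 4) * ∫ g, ‖f g‖ ^ 2 ∂μ = (c * ∫ g, ‖f g‖ ^ 2 ∂μ) / 2 := by ring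
    rw [h5]
    linarith

theorem word : StmWord := by
  intro μ _ _ a b a' b' c hc ha hb h
  have hD0 : ∀ f : SO3 → ℂ, 0 ≤ dd μ a f + dd μ b f := fun f =>
    add_nonneg (dd_nonneg _ _) (dd_nonneg _ _)
  obtain ⟨A, hA, hw⟩ := two_words (μ := μ) ({a, b} : Set SO3) (fun f => dd μ a f + dd μ b f) hD0
    (fun s hs f _ => by
      rcases hs with rfl | hs
      · linarith [dd_nonneg (μ := μ) b f]
      · rw [mem_singleton_iff] at hs
        subst hs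
        linarith [dd_nonneg (μ := μ) a f]) ha hb
  refine ⟨c / (2 * A + 1), by positivity, (unif_iff μ _ a b).2 fun f hf h0 => ?_⟩
  have h1 := (unif_iff μ c a' b').1 h f hf h0
  have h2 := hw f hf
  have h3 : (dd μ a f + dd μ b f) ^ 2 ≤ 2 * (dd μ a f ^ 2 + dd μ b f ^ 2) := by
    nlinarith [sq_nonneg (dd μ a f - dd μ b f)]
  have h4 : c * ∫ g, ‖f g‖ ^ 2 ∂μ ≤ (2 * A + 1) * (dd μ a f ^ 2 + dd μ b f ^ 2) := by
    have := mul_le_mul_of_nonneg_left h3 hA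
    nlinarith [sq_nonneg (dd μ a f), sq_nonneg (dd μ b f)]
  have h5 : c / (2 * A + 1) * ∫ g, ‖f g‖ ^ 2 ∂μ = (c * ∫ g, ‖f g‖ ^ 2 ∂μ) / (2 * A + 1) := by ring
  rw [h5, div_le_iff₀ (by positivity)]
  linarith

theorem fin (μ : Measure SO3) [μ.IsHaarMeasure] [IsProbabilityMeasure μ] (S : Finset SO3)
    (hS : ∀ s ∈ S, s⁻¹ ∈ S) (a' b' : SO3) (c : ℝ) (hc : 0 < c)
    (ha : a' ∈ Subgroup.closure (S : Set SO3)) (hb : b' ∈ Subgroup.closure (S : Set SO3))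
    (h : Unif μ c a' b') : HasGap μ S := by
  have hD0 : ∀ f : SO3 → ℂ, 0 ≤ ∑ s ∈ S, dd μ s f := fun f =>
    Finset.sum_nonneg fun _ _ => dd_nonneg _ _
  obtain ⟨A, hA, hw⟩ := two_words (μ := μ) (S : Set SO3) (fun f => ∑ s ∈ S, dd μ s f) hD0
    (fun s hs f _ => Finset.single_le_sum (f := fun s => dd μ s f) (fun _ _ => dd_nonneg _ _)
      (Finset.mem_coe.1 hs)) ha hb
  refine (gap_iff μ S).2 ⟨c / (2 * (A * S.card + 1)), by positivity, fun f hf h0 => ?_⟩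
  have h1 := (unif_iff μ c a' b').1 h f hf h0
  have h2 := hw f hf
  have h3 : (∑ s ∈ S, dd μ s f) ^ 2 ≤ S.card * ∑ s ∈ S, dd μ s f ^ 2 :=
    sq_sum_le_card_mul_sum_sq
  have h6 : 0 ≤ ∑ s ∈ S, dd μ s f ^ 2 := Finset.sum_nonneg fun _ _ => sq_nonneg _
  have h4 : c * ∫ g, ‖f g‖ ^ 2 ∂μ ≤ (A * S.card + 1) * ∑ s ∈ S, dd μ s f ^ 2 := by
    have := mul_le_mul_of_nonneg_left h3 hA
    nlinarith
  have h5 : 2 * (c / (2 * (A * S.card + 1))) * ∫ g, ‖f g‖ ^ 2 ∂μ =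
      (c * ∫ g, ‖f g‖ ^ 2 ∂μ) / (A * S.card + 1) := by
    field_simp
  rw [h5, div_le_iff₀ (by positivity)]
  linarith

end Pool.Agent.K1H99.ZO
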